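import Pool.Agent.K3h76.HF.Gen
import Pool.Agent.R140.PK.Lift
import Pool.Agent.R140.PK.Cert8

set_option autoImplicit false
set_option linter.unusedSectionVars false
set_option synthInstance.maxHeartbeats 400000
set_option synthInstance.maxSize 2048

/-!
# `1/2`-flow-pairs: classes of graphs closed under contractions
-/

namespace Pool.Agent.K3h76.HF

open Finset Relation Pool.Agent.H160R2.HF Pool.Agent.H179R3.HF Pool.Agent.TH499.NF
open Pool.Agent.R129.Hfp
open Pool.Agent.TH362.TF (nb padj IsPQ PQ Joins N1 NZ)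
open Pool.Agent.R140.PK (St FC)

variable {V E : Type} [Fintype V] [Fintype E] [DecidableEq V] [DecidableEq E]

/-- **Main theorem** for classes which are closed under the contraction of the complements of the
classes of Petersen quotients. -/
theorem mainC (P : OrGraph V E → Prop)
    (hP : ∀ G, P G → (∀ X : Finset V, (G.cut X).card ≠ 1) → ∀ κ : V → Fin 10,
      IsPQ G.t G.h univ κ → ∀ c : Fin 10 → V, (∀ k, κ (c k) ≠ k) → ∀ k, P (mp G (ro κ c k)))
    (hd : ∀ G, P G → (∀ X : Finset V, (G.cut X).card ≠ 1) → NzK G ∨ PQ G.t G.h univ) :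
    ∀ (n : ℕ) (G : OrGraph V E), nl G = n → P G → (∀ X : Finset V, (G.cut X).card ≠ 1) →
      (∃ φ₂ φ₄ : E → ℤ, G.IsHalfFlowPair φ₂ φ₄) ∧ ∀ w, FlexAt G w := by
  intro n
  induction n using Nat.strong_induction_on with
  | _ n ih =>
    intro G hn hG hb
    rcases hd G hG hb with h | ⟨κ, h⟩
    · exact ⟨pair_of_nz hb h, flex_of_nz h⟩
    · have IH : ∀ (κ' : V → Fin 10), IsPQ G.t G.h univ κ' → ∀ (c : Fin 10 → V),
          (∀ k, κ' (c k) ≠ k) → ∀ (k : Fin 10),
          (∃ φ₂ φ₄ : E → ℤ, (mp G (ro κ' c k)).IsHalfFlowPair φ₂ φ₄) ∧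
            ∀ w, FlexAt (mp G (ro κ' c k)) w := by
        intro κ' h' c hc k
        exact ih _ (by rw [← hn]; exact nl_lt h' c k) _ rfl (hP _ hG hb κ' h' c hc k)
          (cut_mp_ne hb _)
      constructor
      · obtain ⟨c, hc⟩ := exists_c h
        obtain ⟨⟨a₂, a₄, ha⟩, _⟩ := IH κ h c hc 0
        obtain ⟨φ₂, φ₄, h1, _⟩ := glueP h hc (fun k => (IH κ h c hc k).2 _) ha
        exact ⟨φ₂, φ₄, h1⟩
      · intro w hw α β hα hβ hok
        obtain ⟨κ', h', hw0⟩ : ∃ κ' : V → Fin 10, IsPQ G.t G.h univ κ' ∧ κ' w = 0 :=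
          ⟨fun v => tau (κ w) (κ v), isPQ_tau h (κ w), tau_self _⟩
        obtain ⟨c, hc⟩ := exists_c h'
        have hcut := cut_ro' (G := G) hc hw0
        have hsum : ∀ γ : E → ℤ, ∑ e ∈ (mp G (ro κ' c 0)).cut {w},
            (if (mp G (ro κ' c 0)).t e = w then γ e else - γ e) =
            ∑ e ∈ G.cut {w}, (if G.t e = w then γ e else - γ e) := by
          intro γ
          rw [hcut]
          refine sum_congr rfl fun e _ => ?_
          have h1 : (mp G (ro κ' c 0)).t e = w ↔ G.t e = w := ro_eq hc hw0 (G.t e)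
          by_cases h2 : G.t e = w
          · rw [if_pos h2, if_pos (h1.2 h2)]
          · rw [if_neg h2, if_neg (fun h3 => h2 (h1.1 h3))]
        obtain ⟨a₂, a₄, ha, hav⟩ := (IH κ' h' c hc 0).2 w (by rw [hcut]; exact hw) α β
          (by rw [hsum]; exact hα) (by rw [hsum]; exact hβ) (by rw [hcut]; exact hok)
        rw [hcut] at hav
        obtain ⟨φ₂, φ₄, h1, h2⟩ := glueP h' hc (fun k => (IH κ' h' c hc k).2 _) ha
        refine ⟨φ₂, φ₄, h1, fun e he => ?_⟩
        have h3 : κ' (G.t e) = 0 ∨ κ' (G.h e) = 0 := by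
          rw [mem_cut, mem_singleton, mem_singleton] at he
          by_cases h4 : G.t e = w
          · left; rw [h4]; exact hw0
          · by_cases h5 : G.h e = w
            · right; rw [h5]; exact hw0
            · exact absurd ⟨fun h => absurd h h4, fun h => absurd h h5⟩ he
        obtain ⟨h6, h7⟩ := h2 e h3
        obtain ⟨h8, h9⟩ := hav e he
        exact ⟨h6.trans h8, h7.trans h9⟩

/-! ## The classes of a Petersen quotient of a connected graph are connected -/

section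

variable {s t : E → V}

theorem closed_of_cut {a : V → Bool} (h : (TH362.TF.cut s t univ a).card = 0) {x y : V}
    (hxy : ReflTransGen (St s t univ (fun _ => True)) x y) : a x = a y := by
  rw [card_eq_zero, TH362.TF.cut, filter_eq_empty_iff] at h
  have h' : ∀ e, a (s e) = a (t e) := fun e => by
    have := h (mem_univ e)
    rwa [not_not] at this
  induction hxy with
  | refl => rfl
  | tail _ h2 ih =>
    obtain ⟨⟨e, _, hE⟩, _, _⟩ := h2
    rcases hE with ⟨h3, h4⟩ | ⟨h3, h4⟩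
    · rw [ih, ← h3, ← h4, h' e]
    · rw [ih, ← h3, ← h4, h' e]

theorem prop1 {P Q A B C D : Prop} (h1 : P ↔ A ∨ C) (h2 : Q ↔ B ∨ D) (h3 : A → ¬ C)
    (h4 : B → ¬ D) (h5 : A → D → False) (h6 : B → C → False) :
    (¬ (P ↔ Q)) ↔ (¬ (A ↔ B) ∨ ¬ (C ↔ D)) := by
  rw [h1, h2]
  by_cases a : A <;> by_cases b : B <;> by_cases c : C <;> by_cases d : D <;> simp_all

theorem prop2 {A B C D : Prop} (h3 : A → ¬ C)
    (h4 : B → ¬ D) (h5 : A → D → False) (h6 : B → C → False) (h7 : ¬ (A ↔ B))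
    (h8 : ¬ (C ↔ D)) : False := by
  by_cases a : A <;> by_cases b : B <;> by_cases c : C <;> by_cases d : D <;> simp_all

theorem class_conn (hn : N1 s t univ)
    (hc : ∀ x y, ReflTransGen (St s t univ (fun _ => True)) x y) {κ : V → Fin 10}
    (hκ : IsPQ s t univ κ) (k : Fin 10) (x y : V) (hx : κ x = k) (hy : κ y = k) :
    ReflTransGen (St s t univ (fun u => κ u = k)) x y := by
  classical
  by_contra hcon
  set R : V → Prop := fun u => κ u = k ∧ ReflTransGen (St s t univ (fun u => κ u = k)) x u with hR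
  set T : V → Prop := fun u => κ u = k ∧ ¬ ReflTransGen (St s t univ (fun u => κ u = k)) x u with hT
  have hstep : ∀ u w, (∃ e, (s e = u ∧ t e = w) ∨ (s e = w ∧ t e = u)) → R u → κ w = k → R w := by
    rintro u w ⟨e, he⟩ ⟨h1, h2⟩ hw
    exact ⟨hw, h2.tail ⟨⟨e, mem_univ e, he⟩, h1, hw⟩⟩
  have hRT : ∀ u w, (∃ e, (s e = u ∧ t e = w) ∨ (s e = w ∧ t e = u)) → R u → T w → False := by
    rintro u w he h1 h2
    exact h2.2 (hstep u w he h1 h2.1).2
  have hor : ∀ u, κ u = k → R u ∨ T u := by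
    intro u hu
    by_cases h : ReflTransGen (St s t univ (fun u => κ u = k)) x u
    · exact Or.inl ⟨hu, h⟩
    · exact Or.inr ⟨hu, h⟩
  have hnot : ∀ u, R u → ¬ T u := fun u h1 h2 => h2.2 h1.2
  have hunion : TH362.TF.cut s t univ (fun v => decide (κ v = k)) =
      TH362.TF.cut s t univ (fun v => decide (R v)) ∪
        TH362.TF.cut s t univ (fun v => decide (T v)) := by
    ext e
    simp only [TH362.TF.cut, mem_filter, mem_univ, true_and, mem_union, ne_eq, decide_eq_decide]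
    exact prop1 ⟨hor (s e), fun h => h.elim (fun h => h.1) (fun h => h.1)⟩
      ⟨hor (t e), fun h => h.elim (fun h => h.1) (fun h => h.1)⟩ (hnot (s e)) (hnot (t e))
      (hRT (s e) (t e) ⟨e, Or.inl ⟨rfl, rfl⟩⟩) (hRT (t e) (s e) ⟨e, Or.inr ⟨rfl, rfl⟩⟩)
  have hdisj : Disjoint (TH362.TF.cut s t univ (fun v => decide (R v)))
      (TH362.TF.cut s t univ (fun v => decide (T v))) := by
    rw [disjoint_left]
    intro e he he'
    simp only [TH362.TF.cut, mem_filter, mem_univ, true_and, ne_eq, decide_eq_decide] at he he'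
    exact prop2 (hnot (s e)) (hnot (t e)) (hRT (s e) (t e) ⟨e, Or.inl ⟨rfl, rfl⟩⟩)
      (hRT (t e) (s e) ⟨e, Or.inr ⟨rfl, rfl⟩⟩) he he'
  have hcard := hκ.1 k
  rw [hunion, card_union_of_disjoint hdisj] at hcard
  have hRx : R x := ⟨hx, ReflTransGen.refl⟩
  have hTy : T y := ⟨hy, hcon⟩
  have n1 := hn (fun v => decide (R v))
  have n2 := hn (fun v => decide (T v))
  have h0 : (TH362.TF.cut s t univ (fun v => decide (R v))).card = 0 ∨
      (TH362.TF.cut s t univ (fun v => decide (T v))).card = 0 := by omega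
  rcases h0 with h0 | h0
  · have := closed_of_cut h0 (hc x y)
    simp only [decide_eq_decide] at this
    exact hnot y (this.1 hRx) hTy
  · have := closed_of_cut h0 (hc x y)
    simp only [decide_eq_decide] at this
    exact hnot x hRx (this.2 hTy)

theorem pet_avoid : ∀ k l m : Fin 10, l ≠ k → m ≠ k → ∃ a b : Fin 10, a ≠ k ∧ b ≠ k ∧
    (a = l ∨ padj l a = true) ∧ (b = a ∨ padj a b = true) ∧ (m = b ∨ padj b m = true) := by
  decide +kernel

theorem compl_conn (hn : N1 s t univ)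
    (hc : ∀ x y, ReflTransGen (St s t univ (fun _ => True)) x y) {κ : V → Fin 10}
    (hκ : IsPQ s t univ κ) (k : Fin 10) (x y : V) (hx : κ x ≠ k) (hy : κ y ≠ k) :
    ReflTransGen (St s t univ (fun u => κ u ≠ k)) x y := by
  have hcl : ∀ x y, κ x ≠ k → κ x = κ y →
      ReflTransGen (St s t univ (fun u => κ u ≠ k)) x y := by
    intro x y hx hxy
    refine R140.PK.St.mono ?_ (class_conn hn hc hκ (κ x) x y rfl hxy.symm)
    intro u hu
    rw [hu]
    exact hx
  have hadj : ∀ l m : Fin 10, l ≠ k → m ≠ k → (m = l ∨ padj l m = true) → ∀ x, κ x = l →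
      ∃ y, κ y = m ∧ ReflTransGen (St s t univ (fun u => κ u ≠ k)) x y := by
    intro l m hl hm h x hxl
    rcases h with rfl | h
    · exact ⟨x, hxl, ReflTransGen.refl⟩
    · obtain ⟨e, he, hj⟩ := hκ.2 l m h
      rcases hj with ⟨h1, h2⟩ | ⟨h1, h2⟩
      · refine ⟨t e, h2, (hcl x (s e) (by rw [hxl]; exact hl) (hxl.trans h1.symm)).tail
          ⟨⟨e, he, Or.inl ⟨rfl, rfl⟩⟩, fun h => hl (h1.symm.trans h),
            fun h => hm (h2.symm.trans h)⟩⟩
      · refine ⟨s e, h1, (hcl x (t e) (by rw [hxl]; exact hl) (hxl.trans h2.symm)).tail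
          ⟨⟨e, he, Or.inr ⟨rfl, rfl⟩⟩, fun h => hl (h2.symm.trans h),
            fun h => hm (h1.symm.trans h)⟩⟩
  obtain ⟨a, b, ha, hb, h1, h2, h3⟩ := pet_avoid k (κ x) (κ y) hx hy
  obtain ⟨x1, hx1, p1⟩ := hadj _ a hx ha h1 x rfl
  obtain ⟨x2, hx2, p2⟩ := hadj a b ha hb h2 x1 hx1
  obtain ⟨x3, hx3, p3⟩ := hadj b (κ y) hb hy h3 x2 hx2
  exact ((p1.trans p2).trans p3).trans (hcl x3 y (by rw [hx3]; exact hy) hx3)

/-- contraction of the complement of a class -/
theorem fc_ro (hn : N1 s t univ)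
    (hc : ∀ x y, ReflTransGen (St s t univ (fun _ => True)) x y) {π : V → V}
    (hπ : FC s t univ π) {κ : V → Fin 10}
    (hκ : IsPQ (π ∘ s) (π ∘ t) univ κ) {c : Fin 10 → V} (hck : ∀ k, κ (c k) ≠ k) (k : Fin 10) :
    FC s t univ (ro κ c k ∘ π) := by
  have hκ' : IsPQ s t univ (κ ∘ π) := hκ
  intro x y hxy
  simp only [Function.comp_apply] at hxy ⊢
  by_cases hx : κ (π x) = k
  · have e1 : ro κ c k (π x) = π x := if_pos hx
    have hy : κ (π y) = k := by
      by_contra hy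
      have e2 : ro κ c k (π y) = c k := if_neg hy
      rw [e1, e2] at hxy
      rw [hxy] at hx
      exact hck k hx
    have e2 : ro κ c k (π y) = π y := if_pos hy
    rw [e1, e2] at hxy
    refine R140.PK.St.mono ?_ (hπ x y hxy)
    intro u hu
    rw [hu]
  · have e1 : ro κ c k (π x) = c k := if_neg hx
    have hy : κ (π y) ≠ k := by
      intro hy
      have e2 : ro κ c k (π y) = π y := if_pos hy
      rw [e1, e2] at hxy
      rw [← hxy] at hy
      exact hck k hy
    refine R140.PK.St.mono ?_ (compl_conn hn hc hκ' k x y hx hy)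
    intro u hu
    rw [e1]
    exact if_neg hu

end

/-! ## Graphs without induced paths with eight vertices -/

/-- no induced path with eight vertices -/
def NoP8 (s t : E → V) : Prop :=
  ¬ ∃ p : Fin 8 → V, Function.Injective p ∧ ∀ i j : Fin 8, i < j →
      ((∃ e, (s e = p i ∧ t e = p j) ∨ (s e = p j ∧ t e = p i)) ↔ i.val + 1 = j.val)

theorem dich8 {s t : E → V} (hp : NoP8 s t) {π : V → V} (hπ : FC s t univ π)
    (hn : N1 (π ∘ s) (π ∘ t) univ) : NZ (π ∘ s) (π ∘ t) univ ∨ PQ (π ∘ s) (π ∘ t) univ := by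
  by_contra hcon
  rw [not_or] at hcon
  obtain ⟨π', hπ', hM⟩ := R140.PK.exists_Mc (π ∘ s) (π ∘ t) univ hn hcon.1 hcon.2
  refine hM.long 8 25 R140.PK.data8 R140.PK.cert8 ?_
  intro q hq hq'
  obtain ⟨p', hp1', hp2'⟩ := R140.PK.lift_path hπ' (by norm_num) q hq hq'
  obtain ⟨p, hp1, hp2⟩ := R140.PK.lift_path hπ (by norm_num) p' hp1' hp2'
  refine hp ⟨p, hp1, fun i j hij => ?_⟩
  rw [← hp2 i j hij]
  constructor
  · rintro ⟨e, he⟩
    exact ⟨fun h => absurd (hp1 h) (ne_of_gt hij), e, Finset.mem_univ e, he⟩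
  · rintro ⟨_, e, _, he⟩
    exact ⟨e, he⟩

theorem main8 {G : OrGraph V E} (hp : NoP8 G.t G.h) (hb : ∀ X : Finset V, (G.cut X).card ≠ 1)
    (hc : ∀ x y, ReflTransGen (St G.t G.h univ (fun _ => True)) x y) :
    (∃ φ₂ φ₄ : E → ℤ, G.IsHalfFlowPair φ₂ φ₄) ∧ ∀ w, FlexAt G w := by
  have hn := n1_of hb
  refine mainC (fun G' => ∃ π, FC G.t G.h univ π ∧ G' = mp G π) ?_ ?_ _ G rfl ⟨id, ?_, ?_⟩ hb
  · rintro _ ⟨π, hπ, rfl⟩ hb' κ hκ c hck k
    exact ⟨ro κ c k ∘ π, fc_ro hn hc hπ hκ hck k, rfl⟩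
  · rintro _ ⟨π, hπ, rfl⟩ hb'
    rcases dich8 hp hπ (n1_of hb') with h | h
    · exact Or.inl (nzK_of h)
    · exact Or.inr h
  · intro x y hxy
    have : x = y := hxy
    subst this
    exact ReflTransGen.refl
  · rfl

end Pool.Agent.K3h76.HF
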