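import Pool.Agent.R129.Hfp.Ears
import Pool.Agent.R926.SC.Mixed
import Pool.Agent.X186.IC.Core

set_option autoImplicit false
set_option linter.unusedSectionVars false
set_option synthInstance.maxHeartbeats 400000
set_option synthInstance.maxSize 2048

/-!
# `1/2`-flow-pairs: chains of pieces, and quotients without many small odd sets
-/

namespace Pool.Agent.K3h76.HF

open Finset Pool.Agent.H160R2.HF Pool.Agent.H179R3.HF Pool.Agent.TH499.NF
open Pool.Agent.TH676.Z Pool.Agent.Y335.FL Pool.Agent.R926.SC Pool.Agent.R129.Hfp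

variable {V E : Type} [Fintype V] [Fintype E] [DecidableEq V] [DecidableEq E]

/-- **Four-flows, general form.**  A chain of pieces whose union `F` has quotients with a flow or a
Petersen quotient. -/
theorem fourD (s t : E → V) (m : ℕ) (C : Fin m → Finset E)
    (h1 : ∀ i, St s t ((univ.filter (fun j => j < i)).biUnion C)
      (C i \ (univ.filter (fun j => j < i)).biUnion C))
    (hb : TH362.TF.N1 s t univ)
    (hd : ∀ r : V → V, (∀ e ∈ univ.biUnion C, r (s e) = r (t e)) →
      TH362.TF.N1 (r ∘ s) (r ∘ t) univ →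
      TH362.TF.NZ (r ∘ s) (r ∘ t) univ ∨ TH362.TF.PQ (r ∘ s) (r ∘ t) univ) :
    TH362.TF.NZ s t univ ∨ TH362.TF.PQ s t univ := by
  classical
  set F := univ.biUnion C with hF
  obtain ⟨r, q1, -, q3, q4⟩ := quotC s t F
  rcases hd r q1 (fun x => hb (x ∘ r)) with h | h
  · left
    obtain ⟨φ, p1, p2⟩ := h
    have hbx : ∀ v, bd2 (r ∘ s) (r ∘ t) (fun e => (φ e).1) v = 0 := by
      intro v
      have h3 := congrArg Prod.fst (p2 v)
      rw [Prod.fst_sum] at h3
      refine Eq.trans ?_ h3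
      unfold bd2
      refine sum_congr rfl fun e _ => ?_
      split_ifs <;> simp
    have hby : ∀ v, bd2 (r ∘ s) (r ∘ t) (fun e => (φ e).2) v = 0 := by
      intro v
      have h3 := congrArg Prod.snd (p2 v)
      rw [Prod.snd_sum] at h3
      refine Eq.trans ?_ h3
      unfold bd2
      refine sum_congr rfl fun e _ => ?_
      split_ifs <;> simp
    obtain ⟨x, hx1, hx2⟩ := q4 _ hbx
    obtain ⟨y, hy1, hy2⟩ := q4 _ hby
    have hA : FlA s t F := by
      refine ⟨x, y, hx1, hy1, fun e he => ?_⟩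
      rw [hx2 e he, hy2 e he]
      have h3 := p1 e (mem_univ e)
      by_contra hcon
      rw [not_or, not_not, not_not] at hcon
      exact h3 (Prod.ext hcon.1 hcon.2)
    obtain ⟨x', y', z1, z2, z3⟩ := foldM circEx s t m C h1 hA
    refine ⟨fun e => (x' e, y' e), fun e _ h => ?_, fun v => ?_⟩
    · have h4 := congrArg Prod.fst h
      have h5 := congrArg Prod.snd h
      rcases z3 e (notMem_empty _) with h6 | h6
      · exact h6 h4
      · exact h6 h5
    · unfold TH362.TF.Cons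
      refine Prod.ext ?_ ?_
      · rw [Prod.fst_sum]
        refine Eq.trans ?_ (z1 v)
        unfold bd2
        refine sum_congr rfl fun e _ => ?_
        split_ifs <;> simp
      · rw [Prod.snd_sum]
        refine Eq.trans ?_ (z2 v)
        unfold bd2
        refine sum_congr rfl fun e _ => ?_
        split_ifs <;> simp
  · right
    obtain ⟨κ, k1, k2⟩ := h
    exact ⟨κ ∘ r, fun k => k1 k, fun k l hkl => k2 k l hkl⟩

/-- the class of the graphs with a chain of pieces whose union has the property `Q` -/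
def Cls (Q : (E → V) → (E → V) → Finset E → Prop) (G : OrGraph V E) : Prop :=
  ∃ (m : ℕ) (C : Fin m → Finset E),
    (∀ i, St G.t G.h ((univ.filter (fun j => j < i)).biUnion C)
      (C i \ (univ.filter (fun j => j < i)).biUnion C)) ∧ Q G.t G.h (univ.biUnion C)

/-- **Main theorem for chains.** -/
theorem chains (Q : (E → V) → (E → V) → Finset E → Prop)
    (hQ : ∀ s t F (ρ : V → V), Q s t F → Q (ρ ∘ s) (ρ ∘ t) F)
    (hd : ∀ s t F, Q s t F → ∀ r : V → V, (∀ e ∈ F, r (s e) = r (t e)) →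
      TH362.TF.N1 (r ∘ s) (r ∘ t) univ →
      TH362.TF.NZ (r ∘ s) (r ∘ t) univ ∨ TH362.TF.PQ (r ∘ s) (r ∘ t) univ)
    {G : OrGraph V E} (h : Cls Q G) (hb : ∀ X : Finset V, (G.cut X).card ≠ 1) :
    (∃ φ₂ φ₄ : E → ℤ, G.IsHalfFlowPair φ₂ φ₄) ∧ ∀ w, FlexAt G w := by
  refine main (Cls Q) (fun G ρ ⟨m, C, h1, h2⟩ => ⟨m, C, fun i => ?_, hQ _ _ _ ρ h2⟩)
    (fun G ⟨m, C, h1, h2⟩ hb => ?_) _ G rfl h hb
  · exact st_map G.t G.h ρ _ _ (h1 i)
  · rcases fourD G.t G.h m C h1 (n1_of hb) (fun r hr hn => hd _ _ _ h2 r hr hn) with h | h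
    · exact Or.inl (nzK_of h)
    · exact Or.inr h

theorem bn_crs (s t : E → V) (X : Finset V) :
    Pool.Agent.X42.FlowH.bn s t univ X = (crs s t X).card := by
  unfold Pool.Agent.X42.FlowH.bn Pool.Agent.TH362.TF.cut
  congr 1
  ext e
  rw [mem_filter, Pool.Agent.R926.SC.mem_crs]
  simp

theorem crs_pre (s t : E → V) (ρ : V → V) (Y : Finset V) :
    crs (ρ ∘ s) (ρ ∘ t) Y = crs s t (univ.filter (fun v => ρ v ∈ Y)) := crs_map s t ρ Y

theorem disj_pre (ρ : V → V) {X Y : Finset V} (h : Disjoint X Y) :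
    Disjoint (univ.filter (fun v => ρ v ∈ X)) (univ.filter (fun v => ρ v ∈ Y)) := by
  rw [disjoint_left] at h ⊢
  intro v hv hv'
  simp only [mem_filter, mem_univ, true_and] at hv hv'
  exact h hv hv'

theorem disj_F {s t : E → V} {F : Finset E} {r : V → V} (hr : ∀ e ∈ F, r (s e) = r (t e))
    (X : Finset V) : Disjoint (crs s t (univ.filter (fun v => r v ∈ X))) F := by
  rw [disjoint_left]
  intro e he heF
  rw [Pool.Agent.R926.SC.mem_crs] at he
  simp only [mem_filter, mem_univ, true_and] at he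
  rw [hr e heF] at he
  exact he Iff.rfl

/-! ## Few disjoint sets with small odd boundaries -/

/-- any `k ≥ 18` disjoint sets, unions of components of `F`, with odd boundaries, have together at
least `4 k - 5` boundary edges -/
def Q1 (s t : E → V) (F : Finset E) : Prop :=
  ∀ (k : ℕ) (X : Fin k → Finset V), 18 ≤ k → (∀ i j, i ≠ j → Disjoint (X i) (X j)) →
    (∀ i, Disjoint (crs s t (X i)) F) → (∀ i, Odd (crs s t (X i)).card) →
    4 * k ≤ ∑ i, (crs s t (X i)).card + 5

theorem Q1.map {s t : E → V} {F : Finset E} (ρ : V → V) (h : Q1 s t F) :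
    Q1 (ρ ∘ s) (ρ ∘ t) F := by
  intro k X hk h1 h2 h3
  simp only [crs_pre] at h2 h3 ⊢
  exact h k (fun i => univ.filter (fun v => ρ v ∈ X i)) hk
    (fun i j hij => disj_pre ρ (h1 i j hij)) h2 h3

theorem Q1.dich {s t : E → V} {F : Finset E} (h : Q1 s t F) (r : V → V)
    (hr : ∀ e ∈ F, r (s e) = r (t e)) (hn : TH362.TF.N1 (r ∘ s) (r ∘ t) univ) :
    TH362.TF.NZ (r ∘ s) (r ∘ t) univ ∨ TH362.TF.PQ (r ∘ s) (r ∘ t) univ := by
  refine Pool.Agent.X42.FlowH.mainB _ _ _ hn ?_
  rintro ⟨k, X, hk, h1, h2, h3⟩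
  have h4 := h k (fun i => univ.filter (fun v => r v ∈ X i)) hk
    (fun i j hij => disj_pre r (h1 i j hij)) (fun i => disj_F hr (X i)) (fun i => by
      have := h2 i
      rw [bn_crs, crs_pre] at this
      exact this)
  simp only [bn_crs, crs_pre] at h3
  omega

/-! ## Few non-adjacent sets with small odd boundaries -/

/-- there are no `a + 1` disjoint and non-adjacent sets, disjoint from `U`, unions of components of
`F`, with odd boundaries with at most `2 c + 1` edges -/
def Q2 (s t : E → V) (F : Finset E) : Prop :=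
  ∃ (U : Finset V) (a c : ℕ), 3 ≤ a ∧ 1 ≤ c ∧ 4 * a + U.card + 6 / c ≤ 21 ∧
    ¬ ∃ X : Fin (a + 1) → Finset V, (∀ i j, i ≠ j → Disjoint (X i) (X j) ∧
      ∀ e, ¬ (s e ∈ X i ∧ t e ∈ X j)) ∧ (∀ i, Disjoint (X i) U) ∧
      (∀ i, Disjoint (crs s t (X i)) F) ∧
      ∀ i, Odd (crs s t (X i)).card ∧ (crs s t (X i)).card ≤ 2 * c + 1

theorem Q2.pull {s t : E → V} {r : V → V} {U : Finset V} {n b : ℕ}
    {X : Fin n → Finset V} (h1 : ∀ i j, i ≠ j → Disjoint (X i) (X j) ∧
      ∀ e, ¬ (r (s e) ∈ X i ∧ r (t e) ∈ X j)) (h2 : ∀ i, Disjoint (X i) (U.image r))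
    (h4 : ∀ i, Odd (crs (r ∘ s) (r ∘ t) (X i)).card ∧ (crs (r ∘ s) (r ∘ t) (X i)).card ≤ b) :
    (∀ i j, i ≠ j → Disjoint (univ.filter (fun v => r v ∈ X i)) (univ.filter (fun v => r v ∈ X j)) ∧
      ∀ e, ¬ (s e ∈ univ.filter (fun v => r v ∈ X i) ∧ t e ∈ univ.filter (fun v => r v ∈ X j))) ∧
    (∀ i, Disjoint (univ.filter (fun v => r v ∈ X i)) U) ∧
    ∀ i, Odd (crs s t (univ.filter (fun v => r v ∈ X i))).card ∧
      (crs s t (univ.filter (fun v => r v ∈ X i))).card ≤ b := by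
  refine ⟨fun i j hij => ⟨disj_pre r (h1 i j hij).1, fun e he => ?_⟩, fun i => ?_, fun i => ?_⟩
  · simp only [mem_filter, mem_univ, true_and] at he
    exact (h1 i j hij).2 e he
  · rw [disjoint_left]
    intro v hv hvU
    simp only [mem_filter, mem_univ, true_and] at hv
    exact disjoint_left.1 (h2 i) hv (mem_image_of_mem r hvU)
  · have := h4 i
    rw [crs_pre] at this
    exact this

theorem Q2.map {s t : E → V} {F : Finset E} (ρ : V → V) (h : Q2 s t F) :
    Q2 (ρ ∘ s) (ρ ∘ t) F := by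
  obtain ⟨U, a, c, ha, hc, hU, h⟩ := h
  refine ⟨U.image ρ, a, c, ha, hc, ?_, ?_⟩
  · have : (U.image ρ).card ≤ U.card := card_image_le
    omega
  · rintro ⟨X, h1, h2, h3, h4⟩
    obtain ⟨k1, k2, k4⟩ := Q2.pull h1 h2 h4
    refine h ⟨fun i => univ.filter (fun v => ρ v ∈ X i), k1, k2, fun i => ?_, k4⟩
    have := h3 i
    rw [crs_pre] at this
    exact this

theorem Q2.dich {s t : E → V} {F : Finset E} (h : Q2 s t F) (r : V → V)
    (hr : ∀ e ∈ F, r (s e) = r (t e)) (hn : TH362.TF.N1 (r ∘ s) (r ∘ t) univ) :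
    TH362.TF.NZ (r ∘ s) (r ∘ t) univ ∨ TH362.TF.PQ (r ∘ s) (r ∘ t) univ := by
  obtain ⟨U, a, c, ha, hc, hU, h⟩ := h
  have hU' : (U.image r).card ≤ U.card := card_image_le
  refine Pool.Agent.X186.IC.mainI _ _ _ hn (U.image r) a c ha hc (by omega) ?_
  rintro ⟨X, h1, h2, h3⟩
  obtain ⟨k1, k2, k4⟩ := Q2.pull (s := s) (t := t) (r := r) (U := U) (X := X) (b := 2 * c + 1)
    (fun i j hij => ⟨(h1 i j hij).1, fun e he => (h1 i j hij).2 ⟨e, mem_univ e, Or.inl he⟩⟩) h2
    (fun i => by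
      have := h3 i
      rw [bn_crs] at this
      exact this)
  exact h ⟨fun i => univ.filter (fun v => r v ∈ X i), k1, k2, fun i => disj_F hr (X i), k4⟩

/-- The boundary of a set and the degrees of its vertices (loops not counted). -/
theorem cut_sum (G : OrGraph V E) (X : Finset V) : ∑ v ∈ X, (G.cut {v}).card =
    (G.cut X).card + 2 * (univ.filter (fun e => G.t e ∈ X ∧ G.h e ∈ X ∧ G.t e ≠ G.h e)).card := by
  unfold OrGraph.cut
  simp only [card_filter]
  rw [sum_comm, mul_sum, ← sum_add_distrib]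
  refine sum_congr rfl fun e _ => ?_
  have key : ∀ v, (if ¬ (G.t e ∈ ({v} : Finset V) ↔ G.h e ∈ ({v} : Finset V)) then 1 else 0) =
      if G.t e = G.h e then 0 else (if G.t e = v then 1 else 0) + (if G.h e = v then 1 else 0) := by
    intro v
    simp only [mem_singleton]
    by_cases h0 : G.t e = G.h e
    · simp [h0]
    · by_cases h1 : G.t e = v <;> by_cases h2 : G.h e = v
      · exact absurd (h1.trans h2.symm) h0
      · simp [h1, h2, h0]
        intro h3
        exact absurd h3.symm h2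
      · simp [h1, h2, h0]
      · simp [h1, h2, h0]
  rw [sum_congr rfl (fun v _ => key v)]
  by_cases h0 : G.t e = G.h e
  · simp [h0]
  · simp only [h0, if_false, ne_eq, not_false_eq_true, and_true]
    rw [sum_add_distrib, sum_ite_eq, sum_ite_eq]
    by_cases h1 : G.t e ∈ X <;> by_cases h2 : G.h e ∈ X <;> simp [h1, h2]

theorem cut_parity (G : OrGraph V E) (X : Finset V) :
    (G.cut X).card % 2 = (∑ v ∈ X, (G.cut {v}).card) % 2 := by
  rw [cut_sum]
  omega

end Pool.Agent.K3h76.HF
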